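import Pool.Agent.Helper63.PH.Alg

/-! # Project PH, module NUM : the number of colours is polylogarithmic -/

set_option autoImplicit false

namespace Pool.Agent.Helper20.PH

theorem hNUM : ∃ p : ℕ → ℕ, ∀ k : ℕ, ∃ N0 : ℕ, ∀ n : ℕ, N0 ≤ n →
    ((((2 * Nat.log 2 n + 3) * (Nat.log 2 n + 1) * ((Nat.log 2 n + 2) * ((Nat.log 2 n + 1) *
      ((2 * (2 * Nat.log 2 n + 2) * Nat.log 2 n + 1) * (k + 1)))) *
        (2 * (Nat.log 2 n + 1)) ^ (k - 1)) ^ (k - 1) : ℕ) : ℝ) < (Real.log (n : ℝ)) ^ (p k) := by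
  refine ⟨fun k => 40 * (k + 1) ^ 2, fun k => ⟨⌈Real.exp ((k : ℝ) + 5)⌉₊, fun n hn => ?_⟩⟩
  have hn1 : Real.exp ((k : ℝ) + 5) ≤ (n : ℝ) := (Nat.le_ceil _).trans (by exact_mod_cast hn)
  have hnpos : (0 : ℝ) < (n : ℝ) := (Real.exp_pos _).trans_le hn1
  have hx : (k : ℝ) + 5 ≤ Real.log (n : ℝ) := by
    rw [Real.le_log_iff_exp_le hnpos]; exact hn1
  set x : ℝ := Real.log (n : ℝ) with hxdef
  have hk0 : (0 : ℝ) ≤ (k : ℝ) := Nat.cast_nonneg k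
  have hx5 : (5 : ℝ) ≤ x := by linarith
  have hn0 : n ≠ 0 := by
    rintro rfl
    simp at hnpos
  have hL : ((Nat.log 2 n : ℕ) : ℝ) ≤ 2 * x := by
    have h1 : (2 : ℕ) ^ Nat.log 2 n ≤ n := Nat.pow_log_le_self 2 hn0
    have h2 : ((2 : ℝ)) ^ Nat.log 2 n ≤ (n : ℝ) := by exact_mod_cast h1
    have h3 : Real.log ((2 : ℝ) ^ Nat.log 2 n) ≤ x := Real.log_le_log (by positivity) h2
    rw [Real.log_pow] at h3
    have h4 : (1 / 2 : ℝ) ≤ Real.log 2 := by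
      have := Real.log_two_gt_d9
      linarith
    have h5 : (0 : ℝ) ≤ ((Nat.log 2 n : ℕ) : ℝ) := Nat.cast_nonneg _
    nlinarith [mul_le_mul_of_nonneg_left h4 h5]
  set l : ℝ := ((Nat.log 2 n : ℕ) : ℝ) with hl
  have hl0 : (0 : ℝ) ≤ l := Nat.cast_nonneg _
  have hxx : 5 * x ≤ x ^ 2 := by nlinarith
  have h1 : 2 * l + 3 ≤ x ^ 2 := by nlinarith
  have h2 : l + 1 ≤ x ^ 2 := by nlinarith
  have h3 : l + 2 ≤ x ^ 2 := by nlinarith
  have h4 : 2 * (2 * l + 2) * l + 1 ≤ x ^ 4 := by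
    have ha : 2 * (2 * l + 2) * l + 1 = (2 * l + 1) ^ 2 := by ring
    have hb : 2 * l + 1 ≤ x ^ 2 := by linarith
    calc 2 * (2 * l + 2) * l + 1 = (2 * l + 1) ^ 2 := ha
      _ ≤ (x ^ 2) ^ 2 := pow_le_pow_left₀ (by linarith) hb 2
      _ = x ^ 4 := by ring
  have h5 : (k : ℝ) + 1 ≤ x := by linarith
  have h6 : 2 * (l + 1) ≤ x ^ 2 := by linarith
  rw [Nat.cast_pow]
  have hB : ((((2 * Nat.log 2 n + 3) * (Nat.log 2 n + 1) * ((Nat.log 2 n + 2) * ((Nat.log 2 n + 1) *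
      ((2 * (2 * Nat.log 2 n + 2) * Nat.log 2 n + 1) * (k + 1)))) *
        (2 * (Nat.log 2 n + 1)) ^ (k - 1)) : ℕ) : ℝ) ≤ x ^ (13 + 2 * (k - 1)) := by
    push_cast
    rw [← hl]
    calc (2 * l + 3) * (l + 1) * ((l + 2) * ((l + 1) * ((2 * (2 * l + 2) * l + 1) * ((k : ℝ) + 1)))) *
          (2 * (l + 1)) ^ (k - 1)
        ≤ x ^ 2 * x ^ 2 * (x ^ 2 * (x ^ 2 * (x ^ 4 * x))) * (x ^ 2) ^ (k - 1) := by
          gcongr
      _ = x ^ (13 + 2 * (k - 1)) := by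
          rw [← pow_mul, pow_add]
          ring
  calc _ ≤ (x ^ (13 + 2 * (k - 1))) ^ (k - 1) := pow_le_pow_left₀ (Nat.cast_nonneg _) hB _
    _ = x ^ ((13 + 2 * (k - 1)) * (k - 1)) := by rw [← pow_mul]
    _ < x ^ (40 * (k + 1) ^ 2) := by
        apply pow_lt_pow_right₀ (by linarith)
        have hj : k - 1 ≤ k + 1 := by omega
        calc (13 + 2 * (k - 1)) * (k - 1) ≤ (13 + 2 * (k + 1)) * (k + 1) :=
              Nat.mul_le_mul (by omega) hj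
          _ < 40 * (k + 1) ^ 2 := by nlinarith

end Pool.Agent.Helper20.PH
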